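import Pool.Agent.Z894.LX.Stm

/-!
# Project LX, part 3: graded integrality
-/

set_option autoImplicit false

open MvPolynomial

namespace Pool.Agent.Y592.LX

open Pool.Agent.TH922.KC Pool.Agent.Z894.LX

section

variable {κ Ω X : Type*} [Field κ] [Field Ω] [Algebra κ Ω] [Fintype X]

/-- the graded evaluation -/
noncomputable def Phi (κ : Type*) {Ω X : Type*} [Field κ] [Field Ω] [Algebra κ Ω]
    (w : X → Ω) (k : ℕ) : MvPolynomial X κ →ₐ[κ] Polynomial Ω :=
  aeval (fun j => Polynomial.C (w j) * Polynomial.X ^ k)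

theorem Phi_hom (w : X → Ω) (k t : ℕ) (p : MvPolynomial X κ) (hp : p.IsHomogeneous t) :
    Phi κ w k p = Polynomial.C (aeval w p) * Polynomial.X ^ (k * t) := by
  unfold Phi
  rw [p.as_sum, map_sum, map_sum, map_sum, Finset.sum_mul]
  refine Finset.sum_congr rfl fun μ hμ => ?_
  have hdeg : μ.degree = t := by
    by_contra hne
    exact (mem_support_iff.mp hμ) (hp.coeff_eq_zero hne)
  rw [Finsupp.degree_eq_sum] at hdeg
  rw [aeval_monomial, aeval_monomial, Finsupp.prod_fintype _ _ (fun i => pow_zero _),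
    Finsupp.prod_fintype _ _ (fun i => pow_zero _)]
  simp only [mul_pow]
  rw [Finset.prod_mul_distrib, Finset.prod_pow_eq_pow_sum, hdeg, map_mul, map_prod, ← pow_mul]
  have : algebraMap κ (Polynomial Ω) (coeff μ p) = Polynomial.C (algebraMap κ Ω (coeff μ p)) :=
    rfl
  rw [this]
  simp only [map_pow]
  ring

theorem coeff_Phi (w : X → Ω) {k : ℕ} (hk : 0 < k) (t : ℕ) (p : MvPolynomial X κ) :
    (Phi κ w k p).coeff (k * t) ∈ Pc κ w t := by
  classical
  have h1 : (Phi κ w k p).coeff (k * t) = aeval w (homogeneousComponent t p) := by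
    conv_lhs => rw [← sum_homogeneousComponent p]
    rw [map_sum, Polynomial.finsetSum_coeff]
    have h2 : ∀ i ∈ Finset.range (p.totalDegree + 1),
        (Phi κ w k (homogeneousComponent i p)).coeff (k * t) =
          if i = t then aeval w (homogeneousComponent i p) else 0 := by
      intro i _
      rw [Phi_hom w k i _ (homogeneousComponent_isHomogeneous i p), Polynomial.coeff_C_mul,
        Polynomial.coeff_X_pow]
      by_cases hi : i = t
      · rw [if_pos hi, if_pos (by rw [hi]), mul_one]
      · rw [if_neg hi, if_neg (fun h => hi (Nat.eq_of_mul_eq_mul_left hk h).symm), mul_zero]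
    rw [Finset.sum_congr rfl h2, Finset.sum_ite_eq']
    by_cases ht : t ∈ Finset.range (p.totalDegree + 1)
    · rw [if_pos ht]
    · rw [if_neg ht]
      have h0 : p.totalDegree < t := by simpa using ht
      rw [homogeneousComponent_eq_zero _ _ h0, map_zero]
  rw [h1]
  exact mem_Pc (homogeneousComponent_isHomogeneous t p)

end

theorem int_holds : Pool.Agent.Z894.LX.GInt := by
  intro κ Ω _ _ _ m w Q k N e hk hQ he yy hyy ι _ α mu hmu z hz
  classical
  set A : Subalgebra κ (Polynomial Ω) :=
    Algebra.adjoin κ (Set.range fun j => Polynomial.C (w j) * Polynomial.X ^ k) with hA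
  have hmem : ∀ r : Polynomial Ω, r ∈ A ↔ ∃ p : MvPolynomial (Fin (m + 1)) κ, Phi κ w k p = r := by
    intro r
    rw [hA, Algebra.adjoin_range_eq_range_aeval]
    exact Iff.rfl
  have ha : ∀ (t : ℕ) (a : Ω), a ∈ Pc κ w t →
      Polynomial.C a * Polynomial.X ^ (k * t) ∈ A := by
    rintro t a ⟨p, hp, rfl⟩
    rw [hmem]
    exact ⟨p, Phi_hom w k t p hp⟩
  have hb : ∀ (t : ℕ) (r : Polynomial Ω), r ∈ A → r.coeff (k * t) ∈ Pc κ w t := by
    intro t r hr
    obtain ⟨p, rfl⟩ := (hmem r).1 hr
    exact coeff_Phi w hk t p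
  have halg : ∀ r : Polynomial Ω, r ∈ A → IsIntegral A r := by
    intro r hr
    exact isIntegral_algebraMap (R := A) (A := Polynomial Ω) (x := ⟨r, hr⟩)
  have hc : ∀ i, IsIntegral A (Polynomial.C (yy i) * Polynomial.X) := by
    intro i
    refine IsIntegral.of_pow (Nat.mul_pos hQ hk) (halg _ ?_)
    rw [mul_pow, ← map_pow, mul_comm Q k, mul_comm k Q]
    have := ha Q _ (hyy i)
    rwa [mul_comm k Q] at this
  have hd : IsIntegral A (Polynomial.C z * Polynomial.X ^ (Q * k)) := by
    refine IsIntegral.of_pow he ?_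
    have h1 : (Polynomial.C z * Polynomial.X ^ (Q * k)) ^ e =
        ∑ o, algebraMap κ (Polynomial Ω) (α o) *
          ∏ i ∈ Finset.range (N + 1), (Polynomial.C (yy i) * Polynomial.X) ^ mu o i := by
      rw [mul_pow, ← map_pow, hz, map_sum, Finset.sum_mul, ← pow_mul]
      refine Finset.sum_congr rfl fun o _ => ?_
      simp only [mul_pow]
      rw [Finset.prod_mul_distrib, Finset.prod_pow_eq_pow_sum, hmu o, map_mul, map_prod]
      have : algebraMap κ (Polynomial Ω) (α o) = Polynomial.C (algebraMap κ Ω (α o)) := rfl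
      rw [this]
      simp only [map_pow]
      ring
    rw [h1]
    refine IsIntegral.sum _ fun o _ => IsIntegral.mul (halg _ (A.algebraMap_mem _))
      (IsIntegral.prod _ fun i _ => (hc i).pow _)
  obtain ⟨f, hf, hx⟩ := hd
  refine ⟨f.natDegree, ?_, fun i => - ((f.coeff i : A) : Polynomial Ω).coeff
    (k * (Q * (f.natDegree - i))), ?_, ?_⟩
  · rw [Nat.pos_iff_ne_zero]
    intro h0
    rw [Polynomial.eq_one_of_monic_natDegree_zero hf h0, Polynomial.eval₂_one] at hx
    exact one_ne_zero hx
  · intro i _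
    exact Submodule.neg_mem _ (hb _ _ (f.coeff i).2)
  · have h1 := congrArg (fun q : Polynomial Ω => q.coeff (k * (Q * f.natDegree))) hx
    simp only [Polynomial.eval₂_eq_sum_range, Polynomial.finsetSum_coeff,
      Polynomial.coeff_zero] at h1
    have h2 : ∀ i ∈ Finset.range (f.natDegree + 1),
        ((algebraMap A (Polynomial Ω)) (f.coeff i) *
          (Polynomial.C z * Polynomial.X ^ (Q * k)) ^ i).coeff (k * (Q * f.natDegree)) =
        ((f.coeff i : A) : Polynomial Ω).coeff (k * (Q * (f.natDegree - i))) * z ^ i := by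
      intro i hi
      have hi' : i ≤ f.natDegree := Nat.lt_succ_iff.1 (Finset.mem_range.1 hi)
      have e1 : (algebraMap A (Polynomial Ω)) (f.coeff i) *
          (Polynomial.C z * Polynomial.X ^ (Q * k)) ^ i =
          (Polynomial.C (z ^ i) * ((f.coeff i : A) : Polynomial Ω)) *
            Polynomial.X ^ (Q * k * i) := by
        rw [mul_pow, ← pow_mul, ← map_pow]
        show ((f.coeff i : A) : Polynomial Ω) * _ = _
        ring
      have e2 : k * (Q * f.natDegree) = k * (Q * (f.natDegree - i)) + Q * k * i := by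
        have : f.natDegree = (f.natDegree - i) + i := by omega
        conv_lhs => rw [this]
        ring
      rw [e1, e2, Polynomial.coeff_mul_X_pow, Polynomial.coeff_C_mul, mul_comm]
    rw [Finset.sum_congr rfl h2, Finset.sum_range_succ, Nat.sub_self, mul_zero, mul_zero,
      hf.coeff_natDegree] at h1
    have h3 : (((1 : A) : Polynomial Ω)).coeff 0 = 1 := by simp
    rw [h3, one_mul] at h1
    simp only [neg_mul, Finset.sum_neg_distrib]
    exact eq_neg_of_add_eq_zero_right h1

end Pool.Agent.Y592.LX
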